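import Pool.Agent.Lib.WHX.FRInd
import Pool.Agent.Lib.WHX.KChain
import Pool.Agent.Lib.WHX.KSemi

/-!
# W+, devissage: finite sums of simple torsion modules are semisimple

Complements of torsion submodules in finite sums of simple torsion submodules; the projection.
Simple torsion modules and semilinear equivalences.
-/

set_option autoImplicit false

namespace Pool.Agent.Lib.WPD

open Pool.Agent.Lib.WHX

attribute [local instance] Tw.instAddCommGroup Tw.instModule

section

variable {R S : Type} [Ring R] {C : CD R S} {Q : Type} [AddCommGroup Q] [Module R Q]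

/-- a torsion submodule of a finite sum of simple torsion submodules has a complement which is a
sum of some of them -/
theorem exists_compl (hQ : C.LT Q) {ι : Type} (B : ι → Submodule R Q)
    (hB : ∀ i, C.SimpleSub (B i)) (F : Finset ι) (L : Submodule R Q) (hL : C.Tor L)
    (hLF : L ≤ F.sup B) : ∃ J : Finset ι, J ⊆ F ∧ L ⊓ J.sup B = ⊥ ∧ L ⊔ J.sup B = F.sup B := by
  classical
  -- a maximal `J`
  obtain ⟨J, hJ, hmax⟩ : ∃ J : Finset ι, (J ⊆ F ∧ L ⊓ J.sup B = ⊥) ∧
      ∀ J' : Finset ι, J' ⊆ F → L ⊓ J'.sup B = ⊥ → J'.card ≤ J.card := by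
    have hne : (F.powerset.filter fun J => L ⊓ J.sup B = ⊥).Nonempty :=
      ⟨∅, by rw [Finset.mem_filter, Finset.sup_empty, inf_bot_eq]
             exact ⟨Finset.empty_mem_powerset F, rfl⟩⟩
    obtain ⟨J, hJ, hmax⟩ := Finset.exists_max_image _ Finset.card hne
    rw [Finset.mem_filter, Finset.mem_powerset] at hJ
    refine ⟨J, hJ, fun J' h1 h2 => hmax J' ?_⟩
    rw [Finset.mem_filter, Finset.mem_powerset]
    exact ⟨h1, h2⟩
  refine ⟨J, hJ.1, hJ.2, le_antisymm ?_ ?_⟩
  · exact sup_le hLF (Finset.sup_mono hJ.1)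
  · refine Finset.sup_le fun i hi => ?_
    have hJt : C.Tor (J.sup B : Submodule R Q) :=
      hQ.tor_finset_sup B J (fun j _ => (hB j).tor) hL.bot_sub
    have hS : C.Tor (L ⊔ J.sup B : Submodule R Q) := hQ.tor_sup hL hJt
    rcases (hB i).simple _ inf_le_left (hQ.tor_inf (hB i).tor hS) with h | h
    · exfalso
      have hiJ : i ∉ J := by
        intro hiJ
        apply (hB i).ne
        rw [← h, eq_comm, inf_eq_left]
        exact (Finset.le_sup (f := B) hiJ).trans le_sup_right
      have h1 : L ⊓ (insert i J).sup B = ⊥ := by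
        rw [Finset.sup_insert, Submodule.eq_bot_iff]
        rintro x ⟨hxL, hx⟩
        obtain ⟨b, hb, s, hs, rfl⟩ := Submodule.mem_sup.1 hx
        have hb' : b ∈ B i ⊓ (L ⊔ J.sup B) := by
          refine ⟨hb, ?_⟩
          have h2 : b = (b + s) - s := by abel
          rw [h2]
          exact Submodule.sub_mem _ (Submodule.mem_sup_left hxL) (Submodule.mem_sup_right hs)
        rw [h, Submodule.mem_bot] at hb'
        subst hb'
        rw [zero_add] at hxL ⊢
        have h3 : s ∈ L ⊓ J.sup B := ⟨hxL, hs⟩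
        rwa [hJ.2, Submodule.mem_bot] at h3
      have h2 := hmax (insert i J) (Finset.insert_subset hi hJ.1) h1
      rw [Finset.card_insert_of_notMem hiJ] at h2
      omega
    · rw [← h]
      exact inf_le_right

/-- the projection to a torsion submodule of a finite sum of simple torsion submodules -/
theorem exists_proj (hQ : C.LT Q) {ι : Type} (B : ι → Submodule R Q)
    (hB : ∀ i, C.SimpleSub (B i)) (F : Finset ι) (L : Submodule R Q) (hL : C.Tor L)
    (hLF : L ≤ F.sup B) :
    ∃ π : (F.sup B : Submodule R Q) →ₗ[R] L, ∀ x (hx : x ∈ L), π ⟨x, hLF hx⟩ = ⟨x, hx⟩ := by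
  obtain ⟨J, hJ, h1, h2⟩ := exists_compl hQ B hB F L hL hLF
  set T := (F.sup B : Submodule R Q) with hT
  set L' := L.comap T.subtype with hL'
  set S' := (J.sup B).comap T.subtype with hS'
  have hc : IsCompl L' S' := by
    constructor
    · rw [disjoint_iff, Submodule.eq_bot_iff]
      rintro ⟨x, hx⟩ ⟨h3, h4⟩
      have h5 : x ∈ L ⊓ J.sup B := ⟨h3, h4⟩
      rw [h1, Submodule.mem_bot] at h5
      exact Subtype.ext h5
    · rw [codisjoint_iff, eq_top_iff]
      rintro ⟨x, hx⟩ _
      have h3 : x ∈ L ⊔ J.sup B := by rw [h2]; exact hx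
      obtain ⟨l, hl, s, hs, hls⟩ := Submodule.mem_sup.1 h3
      have hs' : s ∈ T := Finset.sup_mono (f := B) hJ hs
      refine Submodule.mem_sup.2 ⟨⟨l, hLF hl⟩, hl, ⟨s, hs'⟩, hs, Subtype.ext hls⟩
  refine ⟨(Submodule.comapSubtypeEquivOfLe hLF).toLinearMap.comp (Submodule.projectionOnto L' S' hc),
    fun x hx => ?_⟩
  have h3 : Submodule.projectionOnto L' S' hc ⟨x, hLF hx⟩ = ⟨⟨x, hLF hx⟩, hx⟩ :=
    Submodule.projectionOnto_apply_left hc ⟨⟨x, hLF hx⟩, hx⟩
  rw [LinearMap.comp_apply, h3]
  rfl

end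

section tw

variable {R S : Type} [Ring R] {C : CD R S} {M N : Type} [AddCommGroup M] [Module R M]
  [AddCommGroup N] [Module R N] {a : R ≃+* R}

/-- twists of simple torsion modules -/
theorem tsimple_tw (h : C.TwInv a) (hM : C.TSimple M) : C.TSimple (Tw a M) := by
  obtain ⟨h1, h2, h3⟩ := hM
  refine ⟨h.tor h1, h2, fun A hA => ?_⟩
  have h4 : C.Tor (Tw.un a A) :=
    (h.symm.tor (hA.congr (Tw.subEquiv a A))).congr (Tw.symmEquiv' (a := a))
  rcases h3 _ h4 with h5 | h5
  · left
    rw [← Tw.sub_un a A, h5]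
    rfl
  · right
    rw [← Tw.sub_un a A, h5]
    rfl

/-- simple torsion modules and semilinear equivalences -/
theorem tsimple_of (h : C.TwInv a) (e : M ≃+ N) (he : ∀ (r : R) (m : M), e (r • m) = a r • e m)
    (hN : C.TSimple N) : C.TSimple M :=
  (tsimple_tw h hN).congr (Tw.ofAdd a e he).symm

/-- simple torsion modules and semilinear equivalences -/
theorem tsimple_of' (h : C.TwInv a) (e : M ≃+ N) (he : ∀ (r : R) (m : M), e (r • m) = a r • e m)
    (hM : C.TSimple M) : C.TSimple N :=
  tsimple_of h.symm e.symm (CD.symm_semi e he) hM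

/-- submodules which are simple torsion modules -/
theorem simpleSub_of_tsimple {A : Submodule R M} (hA : C.TSimple A) : C.SimpleSub A := by
  obtain ⟨h1, h2, h3⟩ := hA
  refine ⟨h1, (Submodule.nontrivial_iff_ne_bot).1 h2, fun B hB hBt => ?_⟩
  have h4 : C.Tor (B.comap A.subtype : Submodule R A) :=
    hBt.congr (Submodule.comapSubtypeEquivOfLe hB).symm
  have h5 : (B.comap A.subtype).map A.subtype = B := by
    rw [Submodule.map_comap_subtype, inf_eq_right.2 hB]
  rcases h3 _ h4 with h6 | h6
  · left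
    rw [← h5, h6, Submodule.map_bot]
  · right
    rw [← h5, h6, Submodule.map_subtype_top]

end tw

end Pool.Agent.Lib.WPD
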